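import Pool.Agent.W702.Sponge.Wild

/-!
The wild embedding of `ℝ^n` (`n ≥ 2`) into the unit ball.
-/

namespace Pool.Agent.W702.Sponge

open Set Filter Topology MeasureTheory
open scoped ENNReal

variable {m : ℕ}

/-- First shear. -/
noncomputable def S1 (δ : ℝ) (x : Fin (m + 2) → ℝ) : Fin (m + 2) → ℝ :=
  Fin.cons (x 0) (fun i : Fin (m + 1) => x i.succ + δ * w (x i.castSucc))

/-- Left inverse of the first shear. -/
noncomputable def R1 (δ : ℝ) (y : Fin (m + 2) → ℝ) (i : Fin (m + 2)) : ℝ :=
  Fin.induction (motive := fun _ => ℝ) (y 0) (fun j xj => y j.succ - δ * w xj) i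

/-- Second shear. -/
noncomputable def S2 (δ : ℝ) (y : Fin (m + 2) → ℝ) : Fin (m + 2) → ℝ :=
  Fin.cons (y 0 + δ * w (y (Fin.last _))) (fun i : Fin (m + 1) => y i.succ)

/-- Left inverse of the second shear. -/
noncomputable def R2 (δ : ℝ) (y : Fin (m + 2) → ℝ) : Fin (m + 2) → ℝ :=
  Fin.cons (y 0 - δ * w (y (Fin.last _))) (fun i : Fin (m + 1) => y i.succ)

lemma w_comp_cont {α : Type*} [TopologicalSpace α] {f : α → ℝ} (hf : Continuous f) :
    Continuous (fun x => w (f x)) := w_cont.comp hf

lemma S1_cont (δ : ℝ) : Continuous (S1 (m := m) δ) := by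
  refine continuous_pi (fun i => ?_)
  refine Fin.cases ?_ (fun j => ?_) i
  · simp only [S1, Fin.cons_zero]; fun_prop
  · simp only [S1, Fin.cons_succ]
    exact (continuous_apply _).add (continuous_const.mul (w_comp_cont (continuous_apply _)))

lemma S2_cont (δ : ℝ) : Continuous (S2 (m := m) δ) := by
  refine continuous_pi (fun i => ?_)
  refine Fin.cases ?_ (fun j => ?_) i
  · simp only [S2, Fin.cons_zero]
    exact (continuous_apply _).add (continuous_const.mul (w_comp_cont (continuous_apply _)))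
  · simp only [S2, Fin.cons_succ]; fun_prop

lemma R2_cont (δ : ℝ) : Continuous (R2 (m := m) δ) := by
  refine continuous_pi (fun i => ?_)
  refine Fin.cases ?_ (fun j => ?_) i
  · simp only [R2, Fin.cons_zero]
    exact (continuous_apply _).sub (continuous_const.mul (w_comp_cont (continuous_apply _)))
  · simp only [R2, Fin.cons_succ]; fun_prop

lemma R1_cont (δ : ℝ) : Continuous (R1 (m := m) δ) := by
  refine continuous_pi (fun i => ?_)
  refine Fin.induction ?_ (fun j hj => ?_) i
  · simp only [R1, Fin.induction_zero]; fun_prop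
  · simp only [R1, Fin.induction_succ] at hj ⊢
    exact (continuous_apply _).sub (continuous_const.mul (w_comp_cont hj))

lemma R1_S1 (δ : ℝ) (x : Fin (m + 2) → ℝ) : R1 δ (S1 δ x) = x := by
  funext i
  refine Fin.induction ?_ (fun j hj => ?_) i
  · simp [R1, S1]
  · have h1 : R1 δ (S1 δ x) j.succ = S1 δ x j.succ - δ * w (R1 δ (S1 δ x) j.castSucc) := by
      simp only [R1, Fin.induction_succ]
    rw [h1, hj]
    simp [S1]

lemma R2_S2 (δ : ℝ) (y : Fin (m + 2) → ℝ) : R2 δ (S2 δ y) = y := by
  funext i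
  have hl : S2 δ y (Fin.last (m + 1)) = y (Fin.last (m + 1)) := by
    rw [← Fin.succ_last]
    simp only [S2, Fin.cons_succ]
  refine Fin.cases ?_ (fun j => ?_) i
  · simp only [R2, Fin.cons_zero, hl]
    simp [S2]
  · simp only [R2, Fin.cons_succ]
    simp only [S2, Fin.cons_succ]

/-- The compression. -/
noncomputable def A (c : ℝ) (x : Fin (m + 2) → ℝ) : Fin (m + 2) → ℝ :=
  Pi.map (fun _ t => c * Real.arctan t) x

lemma arctan_emb {c : ℝ} (hc : 0 < c) : IsEmbedding (fun t : ℝ => c * Real.arctan t) := by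
  have hs : StrictMono (fun t : ℝ => c * Real.arctan t) := fun a b hab =>
    mul_lt_mul_of_pos_left (Real.arctan_strictMono hab) hc
  refine hs.isEmbedding_of_ordConnected ?_
  have hcont : Continuous (fun t : ℝ => c * Real.arctan t) := by fun_prop
  exact (isPreconnected_range hcont).ordConnected

lemma A_emb {c : ℝ} (hc : 0 < c) : IsEmbedding (A (m := m) c) :=
  IsEmbedding.piMap (fun _ => arctan_emb hc)

/-- The wild map on coordinates. -/
noncomputable def Fc (c δ : ℝ) (x : Fin (m + 2) → ℝ) : Fin (m + 2) → ℝ := S2 δ (S1 δ (A c x))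

lemma Fc_emb {c : ℝ} (hc : 0 < c) (δ : ℝ) : IsEmbedding (Fc (m := m) c δ) := by
  have h1 : IsEmbedding (S1 (m := m) δ) :=
    Function.LeftInverse.isEmbedding (f := R1 δ) (R1_S1 δ) (R1_cont δ) (S1_cont δ)
  have h2 : IsEmbedding (S2 (m := m) δ) :=
    Function.LeftInverse.isEmbedding (f := R2 δ) (R2_S2 δ) (R2_cont δ) (S2_cont δ)
  exact h2.comp (h1.comp (A_emb hc))

lemma Fc_bdd {c δ : ℝ} (hc : 0 < c) (hδ : 0 < δ) (x : Fin (m + 2) → ℝ) (i : Fin (m + 2)) :
    |Fc c δ x i| ≤ c * 2 + δ * 4 := by
  have hA : ∀ j, |A c x j| ≤ c * 2 := by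
    intro j
    show |c * Real.arctan (x j)| ≤ _
    rw [abs_mul, abs_of_pos hc]
    have h1 := Real.arctan_lt_pi_div_two (x j)
    have h2 := Real.neg_pi_div_two_lt_arctan (x j)
    have h3 := Real.pi_lt_d2
    have : |Real.arctan (x j)| ≤ 2 := abs_le.mpr ⟨by linarith, by linarith⟩
    gcongr
  have hw : ∀ t, |δ * w t| ≤ δ * 2 := by
    intro t
    rw [abs_mul, abs_of_pos hδ]
    have := w_bdd t
    gcongr
  have hS1 : ∀ j, |S1 δ (A c x) j| ≤ c * 2 + δ * 2 := by
    intro j
    refine Fin.cases ?_ (fun l => ?_) j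
    · simp only [S1, Fin.cons_zero]
      have := hA 0
      linarith
    · simp only [S1, Fin.cons_succ]
      exact (abs_add_le _ _).trans (add_le_add (hA _) (hw _))
  refine Fin.cases ?_ (fun l => ?_) i
  · simp only [Fc, S2, Fin.cons_zero]
    refine (abs_add_le _ _).trans ?_
    have h1 := hS1 0
    have h2 := hw (S1 δ (A c x) (Fin.last (m + 1)))
    linarith
  · simp only [Fc, S2, Fin.cons_succ]
    have := hS1 l.succ
    linarith

/-- If the coordinates of `γ` and of `Fc ∘ γ` have finite variation then `γ` is constant. -/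
lemma Fc_wild {c δ : ℝ} (hc : 0 < c) (hδ : 0 < δ) {a b : ℝ} {γ : ℝ → Fin (m + 2) → ℝ}
    (hγ : ContinuousOn γ (Icc a b))
    (h1 : ∀ i, eVariationOn (fun t => γ t i) (Icc a b) ≠ ⊤)
    (h2 : ∀ i, eVariationOn (fun t => Fc c δ (γ t) i) (Icc a b) ≠ ⊤) :
    ∀ s ∈ Icc a b, ∀ t ∈ Icc a b, γ s = γ t := by
  -- `u` is the compressed curve, `y` the curve after the first shear
  have hAc : Continuous (A (m := m) c) := (A_emb hc).continuous
  let u : ℝ → Fin (m + 2) → ℝ := fun t => A c (γ t)
  let y : ℝ → Fin (m + 2) → ℝ := fun t => S1 δ (u t)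
  have hu : ContinuousOn u (Icc a b) := hAc.comp_continuousOn hγ
  have hy : ContinuousOn y (Icc a b) := (S1_cont δ).comp_continuousOn hu
  have hui : ∀ i, ContinuousOn (fun t => u t i) (Icc a b) := fun i =>
    (continuous_apply i).comp_continuousOn hu
  have hyi : ∀ i, ContinuousOn (fun t => y t i) (Icc a b) := fun i =>
    (continuous_apply i).comp_continuousOn hy
  have huv : ∀ i, eVariationOn (fun t => u t i) (Icc a b) ≠ ⊤ := by
    intro i
    have hL : LipschitzWith 1 Real.arctan := by
      refine lipschitzWith_of_nnnorm_deriv_le Real.differentiable_arctan (fun x => ?_)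
      rw [Real.deriv_arctan]
      rw [← NNReal.coe_le_coe, coe_nnnorm, Real.norm_eq_abs, abs_of_pos (by positivity)]
      rw [NNReal.coe_one, div_le_one (by positivity)]
      nlinarith [sq_nonneg x]
    have h3 := (hL.lipschitzOnWith (s := univ)).comp_eVariationOn_le (g := fun t => γ t i)
      (s := Icc a b) (fun x _ => mem_univ _)
    have h4 : eVariationOn (Real.arctan ∘ fun t => γ t i) (Icc a b) ≠ ⊤ :=
      ne_top_of_le_ne_top (ENNReal.mul_ne_top (by simp) (h1 i)) h3
    exact evar_mul c h4
  -- the coordinates of `y` except the first one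
  have hyv : ∀ j : Fin (m + 1), eVariationOn (fun t => y t j.succ) (Icc a b) ≠ ⊤ := by
    intro j
    have := h2 j.succ
    simpa only [Fc, S2, Fin.cons_succ] using this
  have hδ0 : δ ≠ 0 := hδ.ne'
  -- all coordinates of `u` except the last are constant
  have hconst : ∀ j : Fin (m + 1), ∀ s ∈ Icc a b, ∀ t ∈ Icc a b,
      u s j.castSucc = u t j.castSucc := by
    intro j
    refine const_of_finite (hui _) ?_
    have h5 := evar_mul δ⁻¹ (evar_sub (hyv j) (huv j.succ))
    refine (eVariationOn.congr (fun t _ => ?_)).trans_ne h5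
    have : y t j.succ = u t j.succ + δ * w (u t j.castSucc) := by
      simp only [y, S1, Fin.cons_succ]
    simp only [this]
    field_simp
    ring
  -- the last coordinate of `y` is constant
  have hlast : ∀ s ∈ Icc a b, ∀ t ∈ Icc a b, y s (Fin.last _) = y t (Fin.last _) := by
    refine const_of_finite (hyi _) ?_
    have h6 := evar_mul δ⁻¹ (evar_sub (h2 0) (huv 0))
    refine (eVariationOn.congr (fun t _ => ?_)).trans_ne h6
    have e1 : Fc c δ (γ t) 0 = y t 0 + δ * w (y t (Fin.last _)) := by
      simp only [Fc, S2, Fin.cons_zero, y, u]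
    have e2 : y t 0 = u t 0 := by simp only [y, S1, Fin.cons_zero]
    simp only [e1, e2]
    field_simp
    ring
  -- the last coordinate of `u` is constant
  have hu_const : ∀ s ∈ Icc a b, ∀ t ∈ Icc a b, u s = u t := by
    intro s hs t ht
    funext i
    refine Fin.lastCases ?_ (fun j => ?_) i
    · have e3 : ∀ r, y r (Fin.last (m + 1)) = u r (Fin.last (m + 1)) +
          δ * w (u r (Fin.last m).castSucc) := by
        intro r
        rw [← Fin.succ_last]
        simp only [y, S1, Fin.cons_succ]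
      have e4 := hlast s hs t ht
      rw [e3, e3, hconst (Fin.last m) s hs t ht] at e4
      linarith
    · exact hconst j s hs t ht
  intro s hs t ht
  exact (A_emb hc).injective (hu_const s hs t ht)

end Pool.Agent.W702.Sponge
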