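import Pool.Agent.W702.Sponge.Map

/-!
The one-dimensional case.
-/

namespace Pool.Agent.W702.Sponge

open Set Filter Topology MeasureTheory
open scoped ENNReal

/-- The distribution function of a subset of the line. -/
noncomputable def Mf (V : Set ℝ) (t : ℝ) : ℝ := (volume (V ∩ Iic t)).toReal

lemma Mf_fin {V : Set ℝ} (hV : volume V ≤ 1) (t : ℝ) : volume (V ∩ Iic t) ≠ ⊤ :=
  ne_top_of_le_ne_top ENNReal.one_ne_top ((measure_mono inter_subset_left).trans hV)

lemma Mf_nonneg (V : Set ℝ) (t : ℝ) : 0 ≤ Mf V t := ENNReal.toReal_nonneg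

lemma Mf_le_one {V : Set ℝ} (hV : volume V ≤ 1) (t : ℝ) : Mf V t ≤ 1 := by
  have := ENNReal.toReal_mono ENNReal.one_ne_top
    ((measure_mono (inter_subset_left : V ∩ Iic t ⊆ V)).trans hV)
  simpa [Mf] using this

lemma Mf_diff {V : Set ℝ} (hVo : IsOpen V) (hV : volume V ≤ 1) {s t : ℝ} (hst : s ≤ t) :
    Mf V t = Mf V s + (volume (V ∩ Ioc s t)).toReal := by
  have h1 : V ∩ Iic t = (V ∩ Iic s) ∪ (V ∩ Ioc s t) := by
    rw [← inter_union_distrib_left, Iic_union_Ioc_eq_Iic hst]
  have h2 : Disjoint (V ∩ Iic s) (V ∩ Ioc s t) := by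
    refine Disjoint.mono inter_subset_right inter_subset_right ?_
    rw [Set.disjoint_left]
    intro x hx hx'
    exact absurd hx'.1 (not_lt.mpr hx)
  unfold Mf
  rw [h1, measure_union h2 (hVo.measurableSet.inter measurableSet_Ioc), ENNReal.toReal_add
    (Mf_fin hV s) (ne_top_of_le_ne_top ENNReal.one_ne_top ((measure_mono inter_subset_left).trans hV))]

lemma Mf_mono {V : Set ℝ} (hVo : IsOpen V) (hV : volume V ≤ 1) : Monotone (Mf V) := by
  intro s t hst
  rw [Mf_diff hVo hV hst]
  have : 0 ≤ (volume (V ∩ Ioc s t)).toReal := ENNReal.toReal_nonneg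
  linarith

lemma Mf_le {V : Set ℝ} (hVo : IsOpen V) (hV : volume V ≤ 1) {s t : ℝ} (hst : s ≤ t) :
    Mf V t - Mf V s ≤ t - s := by
  rw [Mf_diff hVo hV hst]
  have h1 : (volume (V ∩ Ioc s t)).toReal ≤ (volume (Ioc s t)).toReal :=
    ENNReal.toReal_mono (by simp) (measure_mono inter_subset_right)
  rw [Real.volume_Ioc, ENNReal.toReal_ofReal (by linarith)] at h1
  linarith

lemma Mf_eq {V : Set ℝ} (hVo : IsOpen V) (hV : volume V ≤ 1) {s t : ℝ} (hst : s ≤ t)
    (hsub : Icc s t ⊆ V) : Mf V t - Mf V s = t - s := by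
  rw [Mf_diff hVo hV hst]
  have h1 : V ∩ Ioc s t = Ioc s t := inter_eq_right.mpr (Ioc_subset_Icc_self.trans hsub)
  rw [h1, Real.volume_Ioc, ENNReal.toReal_ofReal (by linarith)]
  ring

lemma Mf_cont {V : Set ℝ} (hVo : IsOpen V) (hV : volume V ≤ 1) : Continuous (Mf V) := by
  have : LipschitzWith 1 (Mf V) := by
    refine LipschitzWith.of_dist_le_mul (fun x y => ?_)
    rw [Real.dist_eq, Real.dist_eq, NNReal.coe_one, one_mul]
    rcases le_total x y with h | h
    · have h1 := Mf_le hVo hV h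
      have h2 := Mf_mono hVo hV h
      rw [abs_sub_comm, abs_sub_comm x y, abs_of_nonneg (by linarith), abs_of_nonneg (by linarith)]
      exact h1
    · have h1 := Mf_le hVo hV h
      have h2 := Mf_mono hVo hV h
      rw [abs_of_nonneg (by linarith), abs_of_nonneg (by linarith)]
      exact h1
  exact this.continuous

/-- Local control of the inverse. -/
lemma Mf_inv {V : Set ℝ} (hVo : IsOpen V) (hV : volume V ≤ 1) {x ε : ℝ} (hx : x ∈ V)
    (hε : 0 < ε) : ∃ δ > 0, ∀ y, |Mf V y - Mf V x| < δ → |y - x| < ε := by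
  obtain ⟨r, hr, hball⟩ := Metric.isOpen_iff.mp hVo x hx
  refine ⟨min (r / 2) ε, lt_min (by linarith) hε, fun y hy => ?_⟩
  set δ := min (r / 2) ε with hδ
  have hδr : δ ≤ r / 2 := min_le_left _ _
  have hδε : δ ≤ ε := min_le_right _ _
  have hδ0 : 0 < δ := lt_min (by linarith) hε
  by_contra hcon
  push Not at hcon
  rcases le_total x y with h | h
  · rw [abs_of_nonneg (by linarith)] at hcon
    have h1 : x + δ ≤ y := by linarith
    have h2 := Mf_mono hVo hV h1
    have h3 := Mf_eq hVo hV (s := x) (t := x + δ) (by linarith) (fun z hz => hball (by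
      rw [Metric.mem_ball, Real.dist_eq, abs_of_nonneg (by linarith [hz.1])]
      linarith [hz.2]))
    have h4 := le_abs_self (Mf V y - Mf V x)
    linarith
  · rw [abs_sub_comm, abs_of_nonneg (by linarith)] at hcon
    have h1 : y ≤ x - δ := by linarith
    have h2 := Mf_mono hVo hV h1
    have h3 := Mf_eq hVo hV (s := x - δ) (t := x) (by linarith) (fun z hz => hball (by
      rw [Metric.mem_ball, Real.dist_eq, abs_sub_comm, abs_of_nonneg (by linarith [hz.2])]
      linarith [hz.1]))
    have h4 := neg_abs_le (Mf V y - Mf V x)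
    linarith

/-- Along a continuous curve in `V` the distribution function is a translation. -/
lemma Mf_curve {V : Set ℝ} (hVo : IsOpen V) (hV : volume V ≤ 1) {a b : ℝ} {X : ℝ → ℝ}
    (hX : ContinuousOn X (Icc a b)) (hXV : MapsTo X (Icc a b) V) :
    ∀ s ∈ Icc a b, ∀ t ∈ Icc a b, Mf V (X t) - Mf V (X s) = X t - X s := by
  have main : ∀ s ∈ Icc a b, ∀ t ∈ Icc a b, X s ≤ X t → Mf V (X t) - Mf V (X s) = X t - X s := by
    intro s hs t ht hle
    refine Mf_eq hVo hV hle ?_
    have hpre : IsPreconnected (X '' Icc a b) := isPreconnected_Icc.image X hX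
    have hord := hpre.ordConnected
    intro z hz
    obtain ⟨τ, hτ, rfl⟩ := hord.out (mem_image_of_mem X hs) (mem_image_of_mem X ht) hz
    exact hXV hτ
  intro s hs t ht
  rcases le_total (X s) (X t) with h | h
  · exact main s hs t ht h
  · have := main t ht s hs h
    linarith

end Pool.Agent.W702.Sponge
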