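import Mathlib

/-!
A continuous function of infinite variation on every interval.
-/

namespace Pool.Agent.W702.Sponge

open Set Filter Topology MeasureTheory
open scoped ENNReal

/-- `w x = Σ 2^{-k} cos (2 π 8^k x)`. -/
noncomputable def w (x : ℝ) : ℝ := ∑' k : ℕ, (1 / 2 : ℝ) ^ k * Real.cos (2 * Real.pi * 8 ^ k * x)

lemma term_le (k : ℕ) (x : ℝ) :
    ‖(1 / 2 : ℝ) ^ k * Real.cos (2 * Real.pi * 8 ^ k * x)‖ ≤ (1 / 2 : ℝ) ^ k := by
  rw [norm_mul, norm_pow]
  have h1 : ‖(1 / 2 : ℝ)‖ = 1 / 2 := by norm_num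
  rw [h1, Real.norm_eq_abs]
  have := Real.abs_cos_le_one (2 * Real.pi * 8 ^ k * x)
  have h2 : (0 : ℝ) ≤ (1 / 2) ^ k := by positivity
  nlinarith

lemma w_summable (x : ℝ) :
    Summable (fun k : ℕ => (1 / 2 : ℝ) ^ k * Real.cos (2 * Real.pi * 8 ^ k * x)) :=
  Summable.of_norm_bounded summable_geometric_two (fun k => term_le k x)

lemma w_cont : Continuous w := by
  unfold w
  refine continuous_tsum (fun k => by fun_prop) summable_geometric_two (fun k x => term_le k x)

lemma w_bdd (x : ℝ) : |w x| ≤ 2 := by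
  have h := tsum_of_norm_bounded (f := fun k : ℕ => (1 / 2 : ℝ) ^ k * Real.cos (2 * Real.pi * 8 ^ k * x))
    hasSum_geometric_two (fun k => term_le k x)
  simpa [w] using h

lemma w_neg (x : ℝ) : w (-x) = w x := by
  unfold w
  refine tsum_congr (fun k => ?_)
  congr 1
  rw [show 2 * Real.pi * 8 ^ k * (-x) = -(2 * Real.pi * 8 ^ k * x) by ring, Real.cos_neg]

lemma cos_sub_le (a b : ℝ) : |Real.cos a - Real.cos b| ≤ |a - b| := by
  have := Real.lipschitzWith_cos.dist_le_mul a b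
  simpa [Real.dist_eq] using this

lemma w_diff (k : ℕ) (i : ℤ) :
    (9 / 10 : ℝ) * (1 / 2) ^ k ≤ |w (((i + 1 : ℤ) : ℝ) / (2 * 8 ^ k)) - w ((i : ℝ) / (2 * 8 ^ k))| := by
  set a : ℝ := ((i + 1 : ℤ) : ℝ) / (2 * 8 ^ k) with ha
  set b : ℝ := (i : ℝ) / (2 * 8 ^ k) with hb
  have h8 : (0 : ℝ) < 8 ^ k := by positivity
  let d : ℕ → ℝ := fun j => (1 / 2 : ℝ) ^ j * Real.cos (2 * Real.pi * 8 ^ j * a) -
    (1 / 2 : ℝ) ^ j * Real.cos (2 * Real.pi * 8 ^ j * b)
  have hsum : w a - w b = ∑' j, d j := by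
    unfold w
    rw [← (w_summable a).tsum_sub (w_summable b)]
  have hbig : ∀ j, j ∉ Finset.range (k + 1) → d j = 0 := by
    intro j hj
    have hj' : k < j := by
      simp only [Finset.mem_range, not_lt] at hj
      omega
    obtain ⟨m, rfl⟩ : ∃ m, j = k + 1 + m := ⟨j - (k + 1), by omega⟩
    have e1 : ∀ l : ℤ, Real.cos (2 * Real.pi * 8 ^ (k + 1 + m) * ((l : ℝ) / (2 * 8 ^ k))) = 1 := by
      intro l
      have : 2 * Real.pi * 8 ^ (k + 1 + m) * ((l : ℝ) / (2 * 8 ^ k)) =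
          ((4 * 8 ^ m * l : ℤ) : ℝ) * (2 * Real.pi) := by
        push_cast
        rw [pow_add, pow_add]
        field_simp
        ring
      rw [this]
      exact Real.cos_int_mul_two_pi _
    show (1 / 2 : ℝ) ^ (k + 1 + m) * Real.cos (2 * Real.pi * 8 ^ (k + 1 + m) * a) -
      (1 / 2 : ℝ) ^ (k + 1 + m) * Real.cos (2 * Real.pi * 8 ^ (k + 1 + m) * b) = 0
    rw [ha, hb, e1 (i + 1), e1 i]
    ring
  rw [hsum, tsum_eq_sum hbig, Finset.sum_range_succ]
  have hk : |d k| = 2 * (1 / 2) ^ k := by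
    have e2 : ∀ l : ℤ, 2 * Real.pi * 8 ^ k * ((l : ℝ) / (2 * 8 ^ k)) = l * Real.pi := by
      intro l
      field_simp
    have e3 : Real.cos (2 * Real.pi * 8 ^ k * a) = (-1) ^ (i + 1).natAbs := by
      rw [ha, e2, Real.cos_int_mul_pi]
      rcases Int.even_or_odd (i + 1) with h | h
      · rw [h.neg_one_zpow, (Int.natAbs_even.mpr h).neg_one_pow]
      · rw [h.neg_one_zpow, (Int.natAbs_odd.mpr h).neg_one_pow]
    have e4 : Real.cos (2 * Real.pi * 8 ^ k * b) = (-1) ^ i.natAbs := by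
      rw [hb, e2, Real.cos_int_mul_pi]
      rcases Int.even_or_odd i with h | h
      · rw [h.neg_one_zpow, (Int.natAbs_even.mpr h).neg_one_pow]
      · rw [h.neg_one_zpow, (Int.natAbs_odd.mpr h).neg_one_pow]
    show |(1 / 2 : ℝ) ^ k * Real.cos (2 * Real.pi * 8 ^ k * a) -
      (1 / 2 : ℝ) ^ k * Real.cos (2 * Real.pi * 8 ^ k * b)| = _
    rw [e3, e4, ← mul_sub, abs_mul, abs_of_pos (by positivity : (0 : ℝ) < (1 / 2) ^ k)]
    rcases Int.even_or_odd i with h | h
    · have h' : Odd (i + 1) := h.add_one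
      rw [(Int.natAbs_even.mpr h).neg_one_pow, (Int.natAbs_odd.mpr h').neg_one_pow]
      norm_num
      ring
    · have h' : Even (i + 1) := h.add_one
      rw [(Int.natAbs_odd.mpr h).neg_one_pow, (Int.natAbs_even.mpr h').neg_one_pow]
      norm_num
      ring
  have hsmall : |∑ j ∈ Finset.range k, d j| ≤ (11 / 10) * (1 / 2) ^ k := by
    have h1 : ∀ j ∈ Finset.range k, |d j| ≤ Real.pi / 8 ^ k * 4 ^ j := by
      intro j _
      show |(1 / 2 : ℝ) ^ j * Real.cos (2 * Real.pi * 8 ^ j * a) -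
        (1 / 2 : ℝ) ^ j * Real.cos (2 * Real.pi * 8 ^ j * b)| ≤ _
      rw [← mul_sub, abs_mul, abs_of_pos (by positivity : (0 : ℝ) < (1 / 2) ^ j)]
      have h2 := cos_sub_le (2 * Real.pi * 8 ^ j * a) (2 * Real.pi * 8 ^ j * b)
      have h3 : 2 * Real.pi * 8 ^ j * a - 2 * Real.pi * 8 ^ j * b = Real.pi * 8 ^ j / 8 ^ k := by
        rw [ha, hb]
        push_cast
        field_simp
        ring
      have hp : 0 < Real.pi * 8 ^ j / 8 ^ k := div_pos (mul_pos Real.pi_pos (by positivity)) h8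
      rw [h3, abs_of_pos hp] at h2
      have h4 : (1 / 2 : ℝ) ^ j * (Real.pi * 8 ^ j / 8 ^ k) = Real.pi / 8 ^ k * 4 ^ j := by
        have : (8 : ℝ) ^ j = 2 ^ j * 4 ^ j := by rw [← mul_pow]; norm_num
        rw [this, one_div, inv_pow]
        field_simp
      calc (1 / 2 : ℝ) ^ j * |Real.cos (2 * Real.pi * 8 ^ j * a) - Real.cos (2 * Real.pi * 8 ^ j * b)|
          ≤ (1 / 2 : ℝ) ^ j * (Real.pi * 8 ^ j / 8 ^ k) :=
            mul_le_mul_of_nonneg_left h2 (by positivity)
        _ = _ := h4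
    have h5 : ∑ j ∈ Finset.range k, (4 : ℝ) ^ j ≤ 4 ^ k / 3 := by
      rw [geom_sum_eq (by norm_num)]
      have : (0 : ℝ) < 4 ^ k := by positivity
      linarith
    calc |∑ j ∈ Finset.range k, d j| ≤ ∑ j ∈ Finset.range k, |d j| := Finset.abs_sum_le_sum_abs _ _
      _ ≤ ∑ j ∈ Finset.range k, Real.pi / 8 ^ k * 4 ^ j := Finset.sum_le_sum h1
      _ = Real.pi / 8 ^ k * ∑ j ∈ Finset.range k, (4 : ℝ) ^ j := by rw [Finset.mul_sum]
      _ ≤ Real.pi / 8 ^ k * (4 ^ k / 3) := by gcongr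
      _ = Real.pi / 3 * (1 / 2) ^ k := by
        have : (8 : ℝ) ^ k = 2 ^ k * 4 ^ k := by rw [← mul_pow]; norm_num
        rw [this, one_div, inv_pow]
        field_simp
      _ ≤ (11 / 10) * (1 / 2) ^ k := by
        have := Real.pi_lt_d2
        have h9 : (0 : ℝ) < (1 / 2) ^ k := by positivity
        nlinarith
  have h6 : |d k| ≤ |∑ j ∈ Finset.range k, d j + d k| + |∑ j ∈ Finset.range k, d j| := by
    have := abs_sub (∑ j ∈ Finset.range k, d j + d k) (∑ j ∈ Finset.range k, d j)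
    simpa using this
  rw [hk] at h6
  linarith

lemma w_var {a b : ℝ} (hab : a < b) : eVariationOn w (Icc a b) = ⊤ := by
  by_contra hne
  have key : ∀ k : ℕ, (9 / 10 : ℝ) * ((b - a) * 2 * 4 ^ k - 2) ≤
      (eVariationOn w (Icc a b)).toReal := by
    intro k
    have h8 : (0 : ℝ) < 8 ^ k := by positivity
    set D : ℝ := 2 * 8 ^ k with hD
    have hDpos : 0 < D := by positivity
    by_cases hlarge : (b - a) * D ≤ 1
    · have h1 : (b - a) * 2 * 4 ^ k ≤ 1 := by
        have : (4 : ℝ) ^ k ≤ 8 ^ k := by gcongr; norm_num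
        have h2 : 0 < b - a := by linarith
        nlinarith
      have : (9 / 10 : ℝ) * ((b - a) * 2 * 4 ^ k - 2) ≤ 0 := by linarith
      exact this.trans ENNReal.toReal_nonneg
    push Not at hlarge
    set i0 : ℤ := ⌈a * D⌉ with hi0
    set m : ℕ := ⌊(b - a) * D - 1⌋₊ with hm
    have hm1 : (m : ℝ) ≤ (b - a) * D - 1 := Nat.floor_le (by linarith)
    have hm2 : (b - a) * D - 1 < m + 1 := Nat.lt_floor_add_one _
    have hi1 : a * D ≤ i0 := Int.le_ceil _
    have hi2 : (i0 : ℝ) < a * D + 1 := Int.ceil_lt_add_one _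
    let u : ℕ → ℝ := fun i => ((i0 + i : ℤ) : ℝ) / D
    have hu : MonotoneOn u (Iic m) := by
      intro x _ y _ hxy
      show ((i0 + x : ℤ) : ℝ) / D ≤ ((i0 + y : ℤ) : ℝ) / D
      have : ((x : ℤ) : ℝ) ≤ ((y : ℤ) : ℝ) := by exact_mod_cast hxy
      gcongr
    have hus : ∀ i ≤ m, u i ∈ Icc a b := by
      intro i hi
      have hi' : (i : ℝ) ≤ m := by exact_mod_cast hi
      constructor
      · show a ≤ ((i0 + i : ℤ) : ℝ) / D
        rw [le_div_iff₀ hDpos]
        push_cast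
        have : (0 : ℝ) ≤ i := Nat.cast_nonneg _
        linarith
      · show ((i0 + i : ℤ) : ℝ) / D ≤ b
        rw [div_le_iff₀ hDpos]
        push_cast
        nlinarith
    have h1 := eVariationOn.sum_le_of_monotoneOn_Iic (f := w) hu hus
    have h2 : ∑ i ∈ Finset.range m, ENNReal.ofReal ((9 / 10 : ℝ) * (1 / 2) ^ k) ≤
        ∑ i ∈ Finset.range m, edist (w (u (i + 1))) (w (u i)) := by
      refine Finset.sum_le_sum (fun i _ => ?_)
      rw [edist_dist, Real.dist_eq]
      refine ENNReal.ofReal_le_ofReal ?_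
      have := w_diff k (i0 + i)
      have e1 : u (i + 1) = ((i0 + i + 1 : ℤ) : ℝ) / (2 * 8 ^ k) := by
        show ((i0 + (i + 1 : ℕ) : ℤ) : ℝ) / D = _
        push_cast
        rw [hD]
        ring
      rw [e1]
      exact this
    have h3 := h2.trans h1
    rw [Finset.sum_const, Finset.card_range, nsmul_eq_mul] at h3
    have h4 : (m : ℝ) * ((9 / 10 : ℝ) * (1 / 2) ^ k) ≤ (eVariationOn w (Icc a b)).toReal := by
      have := ENNReal.toReal_mono hne h3
      rw [ENNReal.toReal_mul, ENNReal.toReal_ofReal (by positivity)] at this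
      simpa using this
    refine le_trans ?_ h4
    have h5 : (0 : ℝ) < (1 / 2) ^ k := by positivity
    have h6 : (1 / 2 : ℝ) ^ k ≤ 1 := pow_le_one₀ (by norm_num) (by norm_num)
    have h7 : D * (1 / 2) ^ k = 2 * 4 ^ k := by
      have : (8 : ℝ) ^ k = 2 ^ k * 4 ^ k := by rw [← mul_pow]; norm_num
      rw [hD, this, one_div, inv_pow]
      field_simp
    have h8' : (b - a) * D - 2 ≤ m := by linarith
    calc (9 / 10 : ℝ) * ((b - a) * 2 * 4 ^ k - 2)
        ≤ (9 / 10 : ℝ) * (((b - a) * D - 2) * (1 / 2) ^ k) := by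
          have : ((b - a) * D - 2) * (1 / 2) ^ k = (b - a) * (2 * 4 ^ k) - 2 * (1 / 2) ^ k := by
            rw [← h7]; ring
          rw [this]
          nlinarith
      _ ≤ (9 / 10 : ℝ) * (m * (1 / 2) ^ k) := by gcongr
      _ = _ := by ring
  have hba : 0 < b - a := by linarith
  obtain ⟨k, hk⟩ := pow_unbounded_of_one_lt
    (((eVariationOn w (Icc a b)).toReal * (10 / 9) + 2) / ((b - a) * 2)) (by norm_num : (1 : ℝ) < 4)
  rw [div_lt_iff₀ (by positivity)] at hk
  have := key k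
  nlinarith

/-- First hitting time argument, increasing case. -/
lemma const_aux {a b s t : ℝ} {X : ℝ → ℝ} (hX : ContinuousOn X (Icc a b))
    (hs : s ∈ Icc a b) (ht : t ∈ Icc a b) (hst : s < t) (hlt : X s < X t) :
    eVariationOn (fun τ => w (X τ)) (Icc a b) = ⊤ := by
  have hsub : Icc s t ⊆ Icc a b := Icc_subset_Icc hs.1 ht.2
  have hXc : ContinuousOn X (Icc s t) := hX.mono hsub
  let T : ℝ → Set ℝ := fun y => {τ | τ ∈ Icc s t ∧ y ≤ X τ}
  let g : ℝ → ℝ := fun y => sInf (T y)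
  have hbdd : ∀ y, BddBelow (T y) := fun y => ⟨s, fun τ hτ => hτ.1.1⟩
  have hTt : ∀ y ∈ Icc (X s) (X t), t ∈ T y := fun y hy => ⟨⟨hst.le, le_rfl⟩, hy.2⟩
  have hclosed : ∀ y, IsClosed (T y) := by
    intro y
    have : T y = Icc s t ∩ X ⁻¹' (Ici y) := rfl
    rw [this]
    exact hXc.preimage_isClosed_of_isClosed isClosed_Icc isClosed_Ici
  have hgmem : ∀ y ∈ Icc (X s) (X t), g y ∈ T y := fun y hy =>
    (hclosed y).csInf_mem ⟨t, hTt y hy⟩ (hbdd y)
  have hXg : ∀ y ∈ Icc (X s) (X t), X (g y) = y := by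
    intro y hy
    have h1 := hgmem y hy
    have h2 : y ∈ Icc (X s) (X (g y)) := ⟨hy.1, h1.2⟩
    have h3 := intermediate_value_Icc h1.1.1 (hXc.mono (Icc_subset_Icc le_rfl h1.1.2)) h2
    obtain ⟨τ, hτ, hτy⟩ := h3
    have h4 : τ ∈ T y := ⟨⟨hτ.1, hτ.2.trans h1.1.2⟩, hτy.ge⟩
    have h5 : g y ≤ τ := csInf_le (hbdd y) h4
    have h6 : τ = g y := le_antisymm hτ.2 h5
    rw [← h6]
    exact hτy
  have hmono : MonotoneOn g (Icc (X s) (X t)) := by
    intro y hy y' hy' hyy'
    refine csInf_le_csInf (hbdd y) ⟨t, hTt y' hy'⟩ ?_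
    intro τ hτ
    exact ⟨hτ.1, hyy'.trans hτ.2⟩
  have hmaps : MapsTo g (Icc (X s) (X t)) (Icc a b) := fun y hy => hsub (hgmem y hy).1
  have h1 := eVariationOn.comp_le_of_monotoneOn (fun τ => w (X τ)) g hmono hmaps
  have h2 : eVariationOn ((fun τ => w (X τ)) ∘ g) (Icc (X s) (X t)) =
      eVariationOn w (Icc (X s) (X t)) := by
    refine eVariationOn.congr (fun y hy => ?_)
    show w (X (g y)) = w y
    rw [hXg y hy]
  rw [h2, w_var hlt] at h1
  exact top_le_iff.mp h1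

/-- If `X` is continuous and `w ∘ X` has finite variation then `X` is constant. -/
lemma const_of_finite {a b : ℝ} {X : ℝ → ℝ} (hX : ContinuousOn X (Icc a b))
    (hfin : eVariationOn (fun τ => w (X τ)) (Icc a b) ≠ ⊤) :
    ∀ s ∈ Icc a b, ∀ t ∈ Icc a b, X s = X t := by
  have main : ∀ s ∈ Icc a b, ∀ t ∈ Icc a b, s < t → X s = X t := by
    intro s hs t ht hst
    rcases lt_trichotomy (X s) (X t) with h | h | h
    · exact absurd (const_aux hX hs ht hst h) hfin
    · exact h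
    · have h1 := const_aux (X := fun τ => -X τ) hX.neg hs ht hst (by linarith)
      simp only [w_neg] at h1
      exact absurd h1 hfin
  intro s hs t ht
  rcases lt_trichotomy s t with h | h | h
  · exact main s hs t ht h
  · rw [h]
  · exact (main t ht s hs h).symm

lemma evar_sub {u v : ℝ → ℝ} {S : Set ℝ} (hu : eVariationOn u S ≠ ⊤)
    (hv : eVariationOn v S ≠ ⊤) : eVariationOn (fun t => u t - v t) S ≠ ⊤ := by
  have : eVariationOn (fun t => u t - v t) S ≤ eVariationOn u S + eVariationOn v S := by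
    refine iSup_le (fun p => ?_)
    obtain ⟨n, f, hf, hfs⟩ := p
    calc ∑ i ∈ Finset.range n, edist (u (f (i + 1)) - v (f (i + 1))) (u (f i) - v (f i))
        ≤ ∑ i ∈ Finset.range n, (edist (u (f (i + 1))) (u (f i)) +
            edist (v (f (i + 1))) (v (f i))) := by
          refine Finset.sum_le_sum (fun i _ => ?_)
          simp only [edist_dist, Real.dist_eq]
          rw [← ENNReal.ofReal_add (abs_nonneg _) (abs_nonneg _)]
          refine ENNReal.ofReal_le_ofReal ?_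
          have := abs_sub (u (f (i + 1)) - u (f i)) (v (f (i + 1)) - v (f i))
          refine le_trans (le_of_eq ?_) this
          congr 1
          ring
      _ = ∑ i ∈ Finset.range n, edist (u (f (i + 1))) (u (f i)) +
            ∑ i ∈ Finset.range n, edist (v (f (i + 1))) (v (f i)) := Finset.sum_add_distrib
      _ ≤ eVariationOn u S + eVariationOn v S :=
          add_le_add (eVariationOn.sum_le hf hfs) (eVariationOn.sum_le hf hfs)
  exact ne_top_of_le_ne_top (ENNReal.add_ne_top.mpr ⟨hu, hv⟩) this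

lemma evar_mul {u : ℝ → ℝ} {S : Set ℝ} (c : ℝ) (hu : eVariationOn u S ≠ ⊤) :
    eVariationOn (fun t => c * u t) S ≠ ⊤ := by
  have h : LipschitzWith (Real.nnabs c) (fun x : ℝ => c * x) := by
    refine LipschitzWith.of_dist_le_mul (fun x y => ?_)
    rw [Real.dist_eq, Real.dist_eq, ← mul_sub, abs_mul]
    simp
  have h2 := (h.lipschitzOnWith (s := univ)).comp_eVariationOn_le (g := u) (s := S)
    (fun x _ => mem_univ _)
  exact ne_top_of_le_ne_top (ENNReal.mul_ne_top (by simp) hu) h2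

end Pool.Agent.W702.Sponge
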